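import Pool.Agent.N282.MG.E

/-!
# Polynomial phases and the Moebius function twisted by almost every `χ(n) n^(it)`

For all pairs `(χ, t)`, `χ` a Dirichlet character mod `r`, `0 ≤ t ≤ T`, outside a set of measure at most
`C φ(r) T R₀^(-A)`, the bound `|∑_{n ≤ R} μ(n) χ(n) n^(it) e(P(n))| ≤ R^(1/2+ε)` holds for ALL `R` with
`R₀ ≤ R ≤ (rT)^c` and ALL real polynomials `P` of degree at most `m` at the same time; for `m = 1` this is the sup norm of the
exponential sum. There is no hypothesis.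

Proof. High moments over `(χ, t)` at the points of a net for the coefficients of `P` modulo `1`; the moments count the pairs
of `k`-tuples of integers `≤ R` with equal products, because characters mod `r` and `t ≤ T` separate the integers up to `rT`.
Parts were formalised by helpers 592 (orthogonality), 169 and 711.
-/

set_option autoImplicit false

open MeasureTheory

namespace Pool.Agent.Results.MP_b6b996_nt.ComplexTwists

/-- The sum of `μ(n) χ(n) n^(it) e(P(n))` over `1 ≤ n ≤ R`, where `n^(it) = exp(i t log n)` and `e(y) = exp(2πiy)`. -/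
noncomputable def F {r : ℕ} (χ : DirichletCharacter ℂ r) (t : ℝ) (R : ℕ) (P : Polynomial ℝ) : ℂ :=
  ∑ n ∈ Finset.Icc 1 R, ((ArithmeticFunction.moebius n : ℤ) : ℂ) * (χ n * Complex.exp (Complex.I * t * Real.log n)) *
    Complex.exp (2 * Real.pi * Complex.I * (P.eval (n : ℝ) : ℝ))

open Pool.Agent.N282.MG in
theorem F_norm {r m : ℕ} (χ : DirichletCharacter ℂ r) (t : ℝ) (R : ℕ) (P : Polynomial ℝ) (hP : P.natDegree ≤ m) :
    ‖F χ t R P‖ = ‖swc (cw fun j : Fin m => P.coeff ((j : ℕ) + 1)) χ t R‖ := by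
  have h1 : F χ t R P = Complex.exp (2 * Real.pi * Complex.I * (P.coeff 0 : ℝ)) *
      swc (cw fun j : Fin m => P.coeff ((j : ℕ) + 1)) χ t R := by
    unfold F swc cw ct ep
    rw [Finset.mul_sum]
    refine Finset.sum_congr rfl fun n _ => ?_
    have h2 : P.eval (n : ℝ) = P.coeff 0 + pol (fun j : Fin m => P.coeff ((j : ℕ) + 1)) n := by
      rw [Polynomial.eval_eq_sum_range' (Nat.lt_succ_of_le hP), Finset.sum_range_succ']
      unfold pol
      rw [Finset.sum_range fun i => P.coeff (i + 1) * (n : ℝ) ^ (i + 1)]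
      simp only [pow_zero, mul_one]
      ring
    have h3 : 2 * Real.pi * Complex.I * (P.eval (n : ℝ) : ℝ) = 2 * Real.pi * Complex.I * (P.coeff 0 : ℝ) +
        2 * Real.pi * Complex.I * (pol (fun j : Fin m => P.coeff ((j : ℕ) + 1)) n : ℝ) := by
      rw [h2]
      push_cast
      ring
    rw [h3, Complex.exp_add]
    ring
  have h4 : ‖Complex.exp (2 * Real.pi * Complex.I * (P.coeff 0 : ℝ))‖ = 1 := by
    have e : 2 * Real.pi * Complex.I * (P.coeff 0 : ℝ) = ((2 * Real.pi * P.coeff 0 : ℝ) : ℂ) * Complex.I := by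
      push_cast
      ring
    rw [e, Complex.norm_exp_ofReal_mul_I]
  rw [h1, norm_mul, h4, one_mul]

/-- For every degree `m` and all `ε, A > 0` there are `c, C > 0` such that for every modulus `r ≥ 1`, every `T ≥ 1` and
`R₀ ≥ 1`: the sum over the Dirichlet characters `χ` mod `r` of the measure of the set of those `t ∈ [0, T]`, for which
`|∑_{n ≤ R} μ(n) χ(n) n^(it) e(P(n))| > R^(1/2+ε)` for SOME integer `R` with `R₀ ≤ R ≤ (rT)^c` and some real polynomial `P` of
degree at most `m`, is at most `C φ(r) T R₀^(-A)`. -/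
theorem result (m : ℕ) (ε A : ℝ) (hε : 0 < ε) (hA : 0 < A) : ∃ c C : ℝ, 0 < c ∧ 0 < C ∧
    ∀ (r : ℕ) (_ : NeZero r) (T : ℝ) (R₀ : ℕ), 1 ≤ T → 1 ≤ R₀ →
      ∑ χ : DirichletCharacter ℂ r, (volume {t : ℝ | t ∈ Set.Icc 0 T ∧ ∃ R : ℕ, R₀ ≤ R ∧ (R : ℝ) ≤ (r * T) ^ c ∧
        ∃ P : Polynomial ℝ, P.natDegree ≤ m ∧ (R : ℝ) ^ (1 / 2 + ε) < ‖F χ t R P‖}).toReal ≤
        C * (r.totient * T) * (R₀ : ℝ) ^ (-A) := by
  obtain ⟨c, C, hc, hC, h⟩ := Pool.Agent.N282.MG.E_main m ε A hε hA
  refine ⟨c, C, hc, hC, fun r hr T R₀ hT hR₀ => ?_⟩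
  refine le_trans (Finset.sum_le_sum fun χ _ => ?_) (h r hr T R₀ hT hR₀)
  refine ENNReal.toReal_mono ?_ (measure_mono ?_)
  · refine ne_top_of_le_ne_top ?_ (measure_mono fun t ht => ht.1)
    rw [Real.volume_Icc]
    exact ENNReal.ofReal_ne_top
  · rintro t ⟨htT, R, h1, h2, P, hP, h3⟩
    refine ⟨htT, R, h1, h2, fun j => P.coeff ((j : ℕ) + 1), ?_⟩
    rw [← F_norm χ t R P hP]
    exact h3

end Pool.Agent.Results.MP_b6b996_nt.ComplexTwists
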