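import Pool.Agent.N739.SN.Fin

/-!
# The sup norm of the Möbius exponential sum at every height

`F_R(x) = ∑_{n ≤ R} μ(n) e(nx)`, and `w` is a complex number. We bound `max_x Re (w F_R(x))` from below
for EVERY (large) `R`, not only for a sequence of `R`: unconditionally by `c |w| √R / log R`, and by
`R ^ (Re ρ - ε)` for every zero `ρ` of `ζ` or of an even Dirichlet `L`-function (if `Re w ≠ 0`) or of an odd
Dirichlet `L`-function (if `Im w ≠ 0`). So the bound of Q1, even one-sided and only for the members of one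
arbitrarily sparse sequence of `R`, implies the Riemann hypothesis for all Dirichlet `L`-functions.

Method. (1) One Fejér kernel passes from `max_x Re (w F_R(x))` to all Cesàro sums of length `k ≤ R`; the relation
between the sums over all and over the odd integers, together with the antiperiodicity of the latter, makes
the bound two-sided with a loss of one logarithm. (2) For a zero `ρ` the Cesàro sums of `μ χ` of lengths `k ≤ R`
cannot all be `≤ k R ^ (Re ρ - ε)`: the function `L(s, χ) P_R(s) - 1`, where `P_R` is the (twice summed by parts)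
truncated series of `1 / L(s, χ)`, is `-1` at `ρ`, but small on a line to the far right and not large
on a line near `Re s = 0`, which contradicts the Phragmén-Lindelöf principle.
-/

set_option autoImplicit false

open Filter

namespace Pool.Agent.Results.MP_b6b996_nt.EveryHeight

/-- The Möbius exponential sum `F_R(x) = ∑_{n=1}^R μ(n) e^{2πinx}`. -/
noncomputable def F (R : ℕ) (x : ℝ) : ℂ :=
  ∑ n ∈ Finset.Icc 1 R, ((ArithmeticFunction.moebius n : ℤ) : ℂ) *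
    Complex.exp (2 * Real.pi * Complex.I * n * x)

/-- For every `ε > 0` there are arbitrarily large `R` such that `Re (w F_R(x)) ≤ R^(θ + ε)` for all `x`. -/
def SparseUpperBound (w : ℂ) (θ : ℝ) : Prop := ∀ ε : ℝ, 0 < ε →
  ∃ᶠ R : ℕ in atTop, ∀ x : ℝ, (w * F R x).re ≤ (R : ℝ) ^ (θ + ε)

/-- `ζ` and all even Dirichlet `L`-functions have no zeros with `Re s > θ`. -/
def EvenFree (θ : ℝ) : Prop := (∀ s : ℂ, θ < s.re → riemannZeta s ≠ 0) ∧
  ∀ (q : ℕ) [NeZero q] (χ : DirichletCharacter ℂ q), χ ≠ 1 → χ.Even →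
    ∀ s : ℂ, θ < s.re → χ.LFunction s ≠ 0

/-- All odd Dirichlet `L`-functions have no zeros with `Re s > θ`. -/
def OddFree (θ : ℝ) : Prop := ∀ (q : ℕ) [NeZero q] (χ : DirichletCharacter ℂ q), χ.Odd →
  ∀ s : ℂ, θ < s.re → χ.LFunction s ≠ 0

lemma F_eq (R : ℕ) (x : ℝ) : F R x = Pool.Agent.N739.SN.Fs Pool.Agent.N739.SN.mu1 R x := by
  unfold F Pool.Agent.N739.SN.Fs Pool.Agent.N739.SN.mu1 Pool.Agent.N739.SN.ee
  refine Finset.sum_congr rfl fun n _ => ?_
  congr 2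
  push_cast
  ring

lemma odd_ne_one {q : ℕ} {χ : DirichletCharacter ℂ q} (h : χ.Odd) : χ ≠ 1 := by
  rintro rfl
  have h1 : (1 : DirichletCharacter ℂ q) (-1) = -1 := h
  have h2 : (1 : DirichletCharacter ℂ q) (-1) = 1 := by
    rw [MulChar.one_apply isUnit_one.neg]
  rw [h2] at h1
  norm_num at h1

lemma no_zero {w : ℂ} {θ : ℝ} (h : SparseUpperBound w θ) {β : ℝ}
    (hb : ∀ ε : ℝ, 0 < ε → ∀ᶠ R : ℕ in atTop, ∃ x : ℝ, (R : ℝ) ^ (β - ε) < (w * F R x).re) : ¬ θ < β := by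
  intro hlt
  set ε : ℝ := (β - θ) / 2 with hε
  have hε0 : 0 < ε := by rw [hε]; linarith
  obtain ⟨R, h1, x, h2⟩ := ((h ε hε0).and_eventually (hb ε hε0)).exists
  have h3 := h1 x
  have e : θ + ε = β - ε := by rw [hε]; ring
  rw [e] at h3
  linarith

/-- **The sup norm of the Möbius exponential sum at every height.**
(1) `max_x Re (w F_R(x)) ≥ |w| √R / (200 log R)` for all `w ∈ ℂ` and ALL `R ≥ 2`.
(2) Let `Re ρ > 0` and let `ρ` be a zero of `ζ` or of `L(s, χ)` for a nonprincipal even Dirichlet character `χ`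
(of any modulus) and `Re w ≠ 0`, or a zero of `L(s, χ)` for an odd `χ` and `Im w ≠ 0`. Then for every `ε > 0` we have
`max_x Re (w F_R(x)) > R^(Re ρ - ε)` for ALL sufficiently large `R`.
(3) If for every `ε > 0` there are arbitrarily large `R` with `Re (w F_R(x)) ≤ R^(θ + ε)` for all `x`, `θ > 0`, then
all zeros of `ζ` and of all even Dirichlet `L`-functions (if `Re w ≠ 0`) and of all odd Dirichlet
`L`-functions (if `Im w ≠ 0`) have `Re s ≤ θ`.
(4) If for every `ε > 0` there are arbitrarily large `R` with `|F_R(x)| ≤ R^(θ + ε)` for all `x`, `θ > 0`, then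
no Dirichlet `L`-function has a zero with `Re s > θ`. For `θ = 1/2` the assumption is Q1 for a sparse set of `R`,
and the conclusion is the Riemann hypothesis for all Dirichlet `L`-functions. -/
theorem result :
    (∀ (w : ℂ) (R : ℕ), 2 ≤ R → ∃ x : ℝ, 1 / 200 * ‖w‖ * Real.sqrt R / Real.log R ≤ (w * F R x).re) ∧
    (∀ (w ρ : ℂ), 0 < ρ.re →
      ((w.re ≠ 0 ∧ riemannZeta ρ = 0) ∨
        (∃ (q : ℕ) (_ : NeZero q) (χ : DirichletCharacter ℂ q), χ ≠ 1 ∧ χ.LFunction ρ = 0 ∧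
          ((χ.Even ∧ w.re ≠ 0) ∨ (χ.Odd ∧ w.im ≠ 0)))) →
      ∀ ε : ℝ, 0 < ε → ∀ᶠ R : ℕ in atTop, ∃ x : ℝ, (R : ℝ) ^ (ρ.re - ε) < (w * F R x).re) ∧
    (∀ (w : ℂ) (θ : ℝ), 0 < θ → SparseUpperBound w θ →
      (w.re ≠ 0 → EvenFree θ) ∧ (w.im ≠ 0 → OddFree θ)) ∧
    (∀ θ : ℝ, 0 < θ → (∀ ε : ℝ, 0 < ε → ∃ᶠ R : ℕ in atTop, ∀ x : ℝ, ‖F R x‖ ≤ (R : ℝ) ^ (θ + ε)) →
      EvenFree θ ∧ OddFree θ) := by
  have h2 : ∀ (w ρ : ℂ), 0 < ρ.re →
      ((w.re ≠ 0 ∧ riemannZeta ρ = 0) ∨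
        (∃ (q : ℕ) (_ : NeZero q) (χ : DirichletCharacter ℂ q), χ ≠ 1 ∧ χ.LFunction ρ = 0 ∧
          ((χ.Even ∧ w.re ≠ 0) ∨ (χ.Odd ∧ w.im ≠ 0)))) →
      ∀ ε : ℝ, 0 < ε → ∀ᶠ R : ℕ in atTop, ∃ x : ℝ, (R : ℝ) ^ (ρ.re - ε) < (w * F R x).re := by
    intro w ρ h0 h ε hε
    simp only [F_eq]
    rcases h with ⟨hw, hρ⟩ | ⟨q, hq, χ, hχ, hρ, hw⟩
    · exact Pool.Agent.N739.SN.zeta_case hw h0 hρ hε
    · exact Pool.Agent.N739.SN.chi_case hχ hw h0 hρ hε
  have h3 : ∀ (w : ℂ) (θ : ℝ), 0 < θ → SparseUpperBound w θ →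
      (w.re ≠ 0 → EvenFree θ) ∧ (w.im ≠ 0 → OddFree θ) := by
    intro w θ hθ h
    refine ⟨fun hw => ⟨fun s hs hz => ?_, fun q _ χ hχ he s hs hz => ?_⟩, fun hw q _ χ ho s hs hz => ?_⟩
    · exact no_zero h (h2 w s (by linarith) (Or.inl ⟨hw, hz⟩)) hs
    · exact no_zero h (h2 w s (by linarith) (Or.inr ⟨q, inferInstance, χ, hχ, hz, Or.inl ⟨he, hw⟩⟩)) hs
    · exact no_zero h (h2 w s (by linarith)
        (Or.inr ⟨q, inferInstance, χ, odd_ne_one ho, hz, Or.inr ⟨ho, hw⟩⟩)) hs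
  refine ⟨fun w R hR => ?_, h2, h3, fun θ hθ h => ?_⟩
  · simp only [F_eq]
    exact Pool.Agent.N739.SN.uncond w R hR
  · have hS : SparseUpperBound (1 + Complex.I) θ := by
      intro ε hε
      have h4 : ∀ᶠ R : ℕ in atTop, (2 : ℝ) ≤ (R : ℝ) ^ (ε / 2) :=
        ((tendsto_rpow_atTop (by linarith : 0 < ε / 2)).comp tendsto_natCast_atTop_atTop).eventually_ge_atTop 2
      refine ((h (ε / 2) (by linarith)).and_eventually (h4.and (eventually_ge_atTop 1))).mono ?_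
      rintro R ⟨h5, h6, h7⟩ x
      have hR0 : (0 : ℝ) < R := by exact_mod_cast h7
      have h8 : ‖(1 : ℂ) + Complex.I‖ ≤ 2 := by
        refine (norm_add_le _ _).trans ?_
        rw [norm_one, Complex.norm_I]
        norm_num
      calc ((1 + Complex.I) * F R x).re ≤ ‖(1 + Complex.I) * F R x‖ := Complex.re_le_norm _
        _ = ‖(1 : ℂ) + Complex.I‖ * ‖F R x‖ := norm_mul _ _
        _ ≤ (R : ℝ) ^ (ε / 2) * (R : ℝ) ^ (θ + ε / 2) :=
            mul_le_mul (h8.trans h6) (h5 x) (norm_nonneg _) (by positivity)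
        _ = (R : ℝ) ^ (θ + ε) := by
            rw [← Real.rpow_add hR0]
            congr 1
            ring
    exact ⟨(h3 _ θ hθ hS).1 (by simp), (h3 _ θ hθ hS).2 (by simp)⟩

end Pool.Agent.Results.MP_b6b996_nt.EveryHeight
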