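import Pool.Agent.N282.GC.Sup
import Pool.Agent.N282.GC.Jac

/-!
# The sup norm of the Moebius exponential sum twisted by almost any real character

For every `ε > 0` and every `A` there is `c > 0` such that for all but `O(D R₀^(-A))` of the odd `d ≤ D` the bound
`sup_x |∑_{n ≤ R} μ(n) (n/d) e(nx)| ≤ R^(1/2 + ε)` (`(n/d)` is the Jacobi symbol) holds for ALL `R` with
`R₀ ≤ R ≤ D^c`: the conjectured bound, for almost all real characters, uniformly in `x` and `R`.

Proof: high moments over `d` at the points `j / R^2`; the moments count the tuples of integers `≤ R` with square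
product. Parts of the proof were formalised by helper711 (moments, counting) and helper346 (sums of Jacobi symbols
over the lower entry).
-/

set_option autoImplicit false

open Classical

namespace Pool.Agent.Results.MP_b6b996_nt.RealCharacterTwists

/-- The exponential sum `∑_{n ≤ R} μ(n) (n/d) e(nx)`, where `(n/d)` is the Jacobi symbol. -/
noncomputable def F (d R : ℕ) (x : ℝ) : ℂ :=
  ∑ n ∈ Finset.Icc 1 R, ((ArithmeticFunction.moebius n : ℤ) : ℂ) * ((jacobiSym n d : ℤ) : ℂ) *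
    Complex.exp (2 * Real.pi * Complex.I * n * x)

/-- For all `ε, A > 0` there are `c, C > 0` such that for all `D` and `R₀ ≥ 1`, all but at most `C D R₀^(-A)` of the
odd `d ≤ D` satisfy `|F d R x| ≤ R^(1/2 + ε)` for all real `x` and all `R` with `R₀ ≤ R ≤ D^c`. -/
theorem result (ε A : ℝ) (hε : 0 < ε) (hA : 0 < A) : ∃ c C : ℝ, 0 < c ∧ 0 < C ∧ ∀ D R₀ : ℕ, 1 ≤ R₀ →
    (((Finset.Icc 1 D).filter fun d => Odd d ∧ ¬ ∀ R : ℕ, R₀ ≤ R → (R : ℝ) ≤ (D : ℝ) ^ c → ∀ x : ℝ,
      ‖F d R x‖ ≤ (R : ℝ) ^ (1 / 2 + ε)).card : ℝ) ≤ C * D * (R₀ : ℝ) ^ (-A) := by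
  obtain ⟨c, C, hc, hC, h⟩ := Pool.Agent.N282.GC.t_SUP Pool.Agent.N282.GC.t_JAC ε A hε hA
  refine ⟨c, C, hc, hC, fun D R₀ hR => le_trans (le_of_eq ?_) (h D R₀ hR)⟩
  congr 2
  refine Finset.filter_congr fun d _ => ?_
  refine and_congr_right fun _ => ?_
  push Not
  have e : ∀ (R : ℕ) (x : ℝ), F d R x = ∑ n ∈ Finset.Icc 1 R, ((Pool.Agent.N282.GC.fj d n : ℝ) : ℂ) *
      Complex.exp (2 * Real.pi * Complex.I * n * x) := by
    intro R x
    unfold F Pool.Agent.N282.GC.fj
    refine Finset.sum_congr rfl fun n _ => ?_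
    push_cast
    ring
  simp only [e]

end Pool.Agent.Results.MP_b6b996_nt.RealCharacterTwists
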