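import Pool.Agent.N375.LM.Dil

/-!
# MP_b6b996_nt: the Möbius exponential sum on short arcs

`F_R(x) = ∑_{n ≤ R} μ(n) e(nx)`. The question is whether `F_R(x) = O(R^(1/2 + ε))` uniformly on the
circle, and the starting hand-in `SqrtBoundFails` shows that `F_R(x) = O(√R)` is false. Here the sup
norm over the circle is replaced by the sup norm over an arbitrarily short arc, at an arbitrary
place, for the sums over the integers prime to `P`, with any weights modulo `P` which are nonzero at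
exactly the units, such as a Dirichlet character modulo `P`; the arc may have length `φ(P) / P`,
which tends to zero for suitable `P`. For `F_R` itself every arc of length `1/2` is sufficient.

Method. The values at the points `x + j / P` of a trigonometric sum supported on the integers prime
to `P` satisfy the linear recurrence whose characteristic polynomial is the `P`-th cyclotomic
polynomial, so that `φ(P)` consecutive values control all of them. The multiplicativity at the primes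
dividing `P` relates the sums over all integers to those over the integers prime to `P`, without
loss, and weights are removed by finite Fourier analysis.
-/

set_option autoImplicit false

open Filter Topology

namespace Pool.Agent.Results.MP_b6b996_nt.ShortArcs

/-- The exponential sum `∑_{n=1}^R c(n) e^{2πinx}`. -/
noncomputable def S (c : ℕ → ℂ) (R : ℕ) (x : ℝ) : ℂ :=
  ∑ n ∈ Finset.Icc 1 R, c n * Complex.exp (2 * Real.pi * Complex.I * n * x)

/-- The Möbius function. -/
noncomputable def mu (n : ℕ) : ℂ := ((ArithmeticFunction.moebius n : ℤ) : ℂ)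

/-- The Liouville function `λ(n) = (-1)^Ω(n)`. -/
noncomputable def la (n : ℕ) : ℂ := ((ArithmeticFunction.liouville n : ℤ) : ℂ)

/-- `w` is a weight modulo `P` which is nonzero at exactly the units. -/
def UnitWeight (P : ℕ) (w : ZMod P → ℂ) : Prop := ∀ u : ZMod P, w u ≠ 0 ↔ IsUnit u

/-- The product of a weight modulo `P` and an arithmetic function. -/
noncomputable def wt {P : ℕ} (w : ZMod P → ℂ) (f : ℕ → ℂ) (n : ℕ) : ℂ := w (n : ZMod P) * f n

/-- `∑_{n ≤ R} c(n) e(nx) = O(R^(a + ε))` for every `ε > 0`, uniformly in `x`. -/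
def Bound (c : ℕ → ℂ) (a : ℝ) : Prop := ∀ ε : ℝ, 0 < ε → ∃ C : ℝ, ∀ (R : ℕ) (x : ℝ),
  ‖S c R x‖ ≤ C * (R : ℝ) ^ (a + ε)

/-- `∑_{n ≤ R} c(n) e(nx) = O(R^(a + ε))` for every `ε > 0`, uniformly in `α ≤ x ≤ β`. -/
def ArcBound (c : ℕ → ℂ) (a α β : ℝ) : Prop := ∀ ε : ℝ, 0 < ε → ∃ C : ℝ, ∀ (R : ℕ),
  ∀ x ∈ Set.Icc α β, ‖S c R x‖ ≤ C * (R : ℝ) ^ (a + ε)

/-- **The Möbius exponential sum on short arcs.** Let `P ≥ 1`, let `w` be a weight modulo `P` which
is nonzero at exactly the units, and let `[α, β]` be an arc of length at least `φ(P) / P`.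
(1) For every `C` there are arbitrarily large `R` and points `x` of the arc with
`|∑_{n ≤ R} w(n) μ(n) e(nx)| > C √R`.
(2) For every `a ≥ 1/2` the bounds `O(R^(a + ε))` for the sums with the coefficients `μ`, `λ`, `w μ`,
`w λ`, uniformly on the circle, and for those with the coefficients `w μ`, `w λ` uniformly on the
arc, are equivalent. For `a = 1/2` the first one is Q1.
(3) For the coefficients `μ` the same holds for every arc of length at least `1/2`.
(4) Every Dirichlet character modulo `P` is such a weight, and `φ(P) / P` is arbitrarily small: for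
every `ε > 0` the multiples `P` of some `P₀` satisfy `φ(P) ≤ ε P`.
(5) Let `w_P` be such weights modulo `P` for all `P`, and let `Φ` be any function, for instance one
of very rapid growth. For all `x` in a comeagre set there are infinitely many `P` with
`|∑_{n ≤ R} w_P(n) μ(n) e(nx)| > Φ(P) √R` for some `R`.
(6) For all `x` in a comeagre set, all `η < 1/2` and all `C` there are `d ≥ 1` and `R` with
`|∑_{n ≤ R} μ(n) e(n d x)| > C d^η √R`; such `d` and `R` exist also for some `x` in any given arc. -/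
theorem result :
    (∀ (P : ℕ) (w : ZMod P → ℂ) (α β : ℝ), 0 < P → UnitWeight P w →
      (P.totient : ℝ) ≤ P * (β - α) →
      (∀ C : ℝ, ∃ᶠ R : ℕ in atTop, ∃ x ∈ Set.Icc α β, C * Real.sqrt R < ‖S (wt w mu) R x‖) ∧
      ∀ a : ℝ, 1 / 2 ≤ a → List.TFAE [Bound mu a, Bound la a, Bound (wt w mu) a, Bound (wt w la) a,
        ArcBound (wt w mu) a α β, ArcBound (wt w la) a α β]) ∧
    (∀ α β : ℝ, 1 / 2 ≤ β - α →
      (∀ C : ℝ, ∃ᶠ R : ℕ in atTop, ∃ x ∈ Set.Icc α β, C * Real.sqrt R < ‖S mu R x‖) ∧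
      ∀ a : ℝ, 1 / 2 ≤ a → (ArcBound mu a α β ↔ Bound mu a)) ∧
    (∀ (P : ℕ) (χ : DirichletCharacter ℂ P), UnitWeight P fun u => χ u) ∧
    (∀ ε : ℝ, 0 < ε → ∃ P₀ : ℕ, 0 < P₀ ∧ ∀ P : ℕ, P₀ ∣ P → (P.totient : ℝ) ≤ ε * P) ∧
    (∀ w : ∀ P : ℕ, ZMod P → ℂ, (∀ P : ℕ, 0 < P → UnitWeight P (w P)) → ∀ Φ : ℕ → ℝ,
      ∀ᶠ x in residual ℝ, ∃ᶠ P : ℕ in atTop, ∃ R : ℕ, Φ P * Real.sqrt R < ‖S (wt (w P) mu) R x‖) ∧
    (∀ᶠ x in residual ℝ, ∀ η : ℝ, η < 1 / 2 → ∀ C : ℝ, ∃ d : ℕ, 1 ≤ d ∧ ∃ R : ℕ,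
      C * (d : ℝ) ^ η * Real.sqrt R < ‖S mu R (d * x)‖) ∧
    (∀ α β : ℝ, α < β → ∀ η : ℝ, η < 1 / 2 → ∀ C : ℝ, ∃ x ∈ Set.Icc α β, ∃ d : ℕ, 1 ≤ d ∧ ∃ R : ℕ,
      C * (d : ℝ) ^ η * Real.sqrt R < ‖S mu R (d * x)‖) := by
  refine ⟨?_, ?_, ?_, ?_, ?_, Pool.Agent.N375.LM.dil_generic, fun α β hαβ η hη C =>
    Pool.Agent.N375.LM.dil_arc hαβ hη C⟩
  · intro P w α β hP hw hαβ
    refine ⟨fun C => Pool.Agent.N375.LM.omega_arc hP hw hαβ C, ?_⟩
    intro a ha
    have hb : ∀ ε : ℝ, 0 < ε → 0 < a + ε := fun ε hε => by linarith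
    tfae_have 1 ↔ 2 := ((Pool.Agent.Y853.EM.tfae 1 one_ne_zero ha).out 0 3)
    tfae_have 1 ↔ 3 := forall₂_congr fun ε hε => Pool.Agent.N375.LM.UB_mu hP hw (hb ε hε)
    tfae_have 2 ↔ 4 := forall₂_congr fun ε hε => Pool.Agent.N375.LM.UB_li hP hw (hb ε hε)
    tfae_have 5 ↔ 3 := forall₂_congr fun ε _ =>
      Pool.Agent.N375.LM.AB_iff hP hw Pool.Agent.Y853.EM.muc (a + ε) hαβ
    tfae_have 6 ↔ 4 := forall₂_congr fun ε _ =>
      Pool.Agent.N375.LM.AB_iff hP hw Pool.Agent.Y853.EM.lic (a + ε) hαβ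
    tfae_finish
  · intro α β hαβ
    constructor
    · intro C
      refine Pool.Agent.N375.LM.freq_of_not (A := 1) Pool.Agent.Y853.EM.muc_norm ?_ C
      rw [Pool.Agent.N375.LM.half_arc Pool.Agent.Y853.EM.mu_two (by norm_num) hαβ]
      exact Pool.Agent.N375.LM.not_UB
    · intro a ha
      exact forall₂_congr fun ε hε =>
        Pool.Agent.N375.LM.half_arc Pool.Agent.Y853.EM.mu_two (by linarith) hαβ
  · intro P χ u
    constructor
    · intro h
      by_contra h1
      exact h (χ.map_nonunit h1)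
    · intro h
      exact (h.map χ).ne_zero
  · intro ε hε
    exact Pool.Agent.N375.LM.small_totient hε
  · intro w hw Φ
    exact Pool.Agent.N375.LM.generic w hw Φ

end Pool.Agent.Results.MP_b6b996_nt.ShortArcs
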